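import Pool.Agent.N102.TF.Mod
import Pool.Agent.N762.FP.Root2
import Pool.Agent.N808.PR.Abs
import Pool.Agent.W418.Z.Reg

/-!
MP_4d1008_ag: regular models, proper over `ℤ`, in all dimensions, of the integral schemes of finite
type over a finite field `k` of characteristic `p` whose function fields are constructed from
function fields of surfaces over `k` and from Artin-Schreier and purely inseparable coverings of
products of surfaces by finitely many steps of the following kinds, in any order: products;
families of varieties of bounded degree; zeros of polynomials of degree less than `p` with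
controlled discriminants; radicals; systems of linear equations between powers of arbitrary
exponents `p ^ e` together with schön equations, whose coefficients are products of elements of the
previous steps, and coverings of degree a power of `p` by nondegenerate functions of such systems.

The theorem is about the pairs `(K, P)` of a field `K` and a set `P` of elements of `K` which are
obtained by finitely many of the operations of `IsSystemTower`. It contains the theorem
`AdmissibleTowersFinite` on this problem (the operations `surface`, `models`, `variety`, `product`,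
`family`, `element`, `radical`, `saturation`), the theorems `SchonSurfaceModels` and
`SchonSurfaceInseparable` on this problem (one step `artinSchreier` or `inseparable`), and the class of the theorem
`SystemTowers` on the problem MP_19ffc6_ag (the operation `system`); what is new is that all these
operations can be combined in any order, with coefficients which depend on the previous steps.

Examples which are in none of these classes.

* Let the group `(ℤ / p) ^ r` act on surfaces `S 1, ..., S m`, and let
  `X = (S 1 × ... × S m) / (ℤ / p) ^ r`. If `p ≥ 5`: the fibre products over `X` of any number of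
  Weierstrass fibrations `y ^ 2 = x ^ 3 + a * x + b`, where `a` and `b` are rational functions on one
  of the surfaces `S i / (ℤ / p) ^ r` (step `artinSchreier`, then steps `family`, `radical`).

* The fibre products over such an `X` of any number of varieties of dimension `r j` and degree at
  most `δ j` over the function field of one of the surfaces `S i / (ℤ / p) ^ r`, with
  `(δ j) ^ 2 ^ (r j) < p`, and their coverings by radicals of products of forms of bounded degree.

* In all characteristics: the varieties `∑ j, c i j * (a j * x j ^ d j) ^ q j = b i` over `X` or over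
  a variety of bounded degree, where the `c i j`, `b i` are in `k`, the `q j` are powers of `p`,
  `p ∤ d j`, and the `a j` are products of elements of the set `P` of the previous steps (for
  example of forms of bounded degree), and coverings of degree a power of `p` of such varieties by
  nondegenerate functions (step `system`).

The proof: an element of `P` is a boundary function on a model if its zeros and poles are in the
boundary. For each pair of the class there are smooth projective models over `k` with normal
crossings boundary on which given finitely many elements of `P` are boundary functions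
(`Pool.Agent.N762.FP.Mod`). A smooth projective model over a finite field is regular and proper
over `ℤ`.

helper802 (the combination of the operations); the operations are theorems of the library of the
starting files: helper762 (the class of admissible pairs), helper98, helper808 (varieties of bounded
degree, families, adjunction of one element), helper102 (systems with Frobenius levels), helper214
and helper188 (schön systems and coverings over products of surfaces), and the library of the
starting files (helpers 558, 973, 418, 968 and others).
-/

set_option autoImplicit false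

open AlgebraicGeometry CategoryTheory Polynomial Pool.Agent.W558 Pool.Agent.N98
  Pool.Agent.TH214.SD Pool.Agent.N102.FL

namespace Pool.Agent.Results.MP_4d1008_ag.AdmissibleSystems

/-- The values at the point `x` of the polynomials over `F` of total degree at most `t`. -/
noncomputable def values (F : Type) {K : Type} [Field F] [Field K] [Algebra F K] {N : ℕ}
    (x : Fin N → K) (t : ℕ) : Submodule F K :=
  (MvPolynomial.restrictTotalDegree (Fin N) F t).map
    (MvPolynomial.aeval x : MvPolynomial (Fin N) F →ₐ[F] K).toLinearMap

/-- The variety in the affine space over `F` with the generic point `x` (the zeros of the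
polynomials over `F` which vanish at `x`), whose function field is `F (x)`, has dimension `r` and
degree at most `δ`: its Hilbert function, the dimension over `F` of the space of the polynomial
functions of degree at most `t` on the variety, is at most `δ * t ^ r / r! + O (t ^ (r - 1))`. -/
def DegreeAtMost (F : Type) {K : Type} [Field F] [Field K] [Algebra F K] {N : ℕ}
    (x : Fin N → K) (r δ : ℕ) : Prop :=
  Algebra.trdeg F (IntermediateField.adjoin F (Set.range x)) = r ∧
    ∃ C : ℕ, ∀ t : ℕ, r.factorial * Module.finrank F (values F x t) ≤ δ * (t + C) ^ r

/-- The smallest class of pairs `(K, P)`, where `K` is an extension of the field `k` and `P` is a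
set of elements of `K`, with the following properties. -/
inductive IsSystemTower (p : ℕ) (k : Type) [Field k] :
    (K : Type) → [Field K] → [Algebra k K] → Set K → Prop
  /-- If `E` is the function field of a smooth projective surface, then `(E, E)` is in the class.
  -/
  | surface (E : Type) [Field E] [Algebra k E] (h2 : Algebra.trdeg k E = 2)
      (hE : HasModel k E) : IsSystemTower p k E Set.univ
  /-- **Artin-Schreier coverings of schön systems over products of surfaces.** Let `E 1, ..., E m` be
  linearly disjoint function fields of surfaces over `k` in `K`, let `y 1, ..., y n` satisfy a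
  relative schön system over their compositum, and let `K` be generated by the `E i`, the `y j` and
  elements `w j` such that the `w j ^ p - w j` are integral linear combinations of arbitrary elements
  `f i` of the `E i` and of jointly nondegenerate Laurent polynomials `F t (u, y)` (for example,
  `n = 0`: the function fields of the elementary abelian coverings of exponent `p` of the products
  of surfaces by sums of functions on the surfaces). Then `(K, P)` is in the class, where `P` is the
  set of the products of elements of the `E i` and of powers of the `y j`. -/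
  | artinSchreier (K : Type) [Field K] [Algebra k K] (m n h c d q r s : ℕ)
      (E : Fin m → IntermediateField k K) (u : Fin h → K) (y : Fin n → K)
      (G : Fin q → (Fin h ⊕ Fin n → ℤ) →₀ k) (ρ : Fin d → Fin n) (f : ∀ i, E i)
      (F : Fin s → (Fin h ⊕ Fin n → ℤ) →₀ k) (T : Set (Fin s)) (w : Fin r → K)
      (hK : IsWildCover E p c u y G ρ f F T w) : IsSystemTower p k K {a | IsProduct E y a}
  /-- **Purely inseparable coverings of schön systems over products of surfaces.** The same for
  elements `w j` such that the `w j ^ p` are linear combinations with coefficients in `k` of products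
  `g t 1 * ... * g t m`, `g t i ∈ E i`, where for each `i` at most one of the `g t i` is not a `p`-th
  power in `E i`, and of strongly nondegenerate Laurent polynomials `F t (u, y)`. -/
  | inseparable (K : Type) [Field K] [Algebra k K] (m n h c d q r s o : ℕ)
      (E : Fin m → IntermediateField k K) (u : Fin h → K) (y : Fin n → K)
      (G : Fin q → (Fin h ⊕ Fin n → ℤ) →₀ k) (ρ : Fin d → Fin n) (g : Fin o → ∀ i, E i)
      (F : Fin s → (Fin h ⊕ Fin n → ℤ) →₀ k) (w : Fin r → K)
      (hK : IsInseparableCover E p c u y G ρ g F w) : IsSystemTower p k K {a | IsProduct E y a}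
  /-- If each finite family of nonzero elements of `P` has its zeros and poles in a simple normal
  crossings divisor on some smooth projective variety with function field `E`, then `(E, P)` is in
  the class. (Examples: `E = k`; function fields of curves, with `P = E`.) -/
  | models (E : Type) [Field E] [Algebra k E] (P : Set E)
      (hE : ∀ (m : ℕ) (g : Fin m → E), (∀ b, g b ∈ P) → (∀ b, g b ≠ 0) →
        ∃ (N L : ℕ) (H : Fin (N + 1) → E) (x : Fin (N + 1) → Fin L → E)
          (Γ : Fin m → Fin L → ℤ), IsLogModel (k := k) g H x Γ) :
      IsSystemTower p k E P
  /-- **Varieties of bounded degree.** Let `K` be the function field of an affine variety over `k`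
  with the generic point `x`, of dimension `r ≥ 2` and degree at most `δ`, where
  `(s * δ) ^ 2 ^ (r - 2) < p`. Then `(K, P)` is in the class for the set `P` of the polynomials over
  `k` of degree at most `s` in the `x i`. -/
  | variety (K : Type) [Field K] [Algebra k K] (N r δ s : ℕ) (x : Fin N → K)
      (hx : IntermediateField.adjoin k (Set.range x) = ⊤) (hr : 2 ≤ r) (hδ : DegreeAtMost k x r δ)
      (hs : 1 ≤ s) (hp : (s * δ) ^ 2 ^ (r - 2) < p) :
      IsSystemTower p k K
        {z | ∃ G : MvPolynomial (Fin N) k, G.totalDegree ≤ s ∧ z = MvPolynomial.aeval x G}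
  /-- **Products.** If `(K₁, P₁)` and `(K₂, P₂)` are in the class, and `K` is the field of fractions
  of the image of `K₁ ⊗ K₂`, where the homomorphism from `K₁ ⊗ K₂` to `K` is injective (if `k` is
  algebraically closed, `K` is the function field of the product of varieties with the function
  fields `K₁` and `K₂`), then `(K, P₁ ∪ P₂)` is in the class. -/
  | product (K₁ K₂ K : Type) [Field K₁] [Field K₂] [Field K] [Algebra k K₁] [Algebra k K₂]
      [Algebra k K] (P₁ : Set K₁) (P₂ : Set K₂) (h₁ : IsSystemTower p k K₁ P₁)
      (h₂ : IsSystemTower p k K₂ P₂) (ι₁ : K₁ →ₐ[k] K) (ι₂ : K₂ →ₐ[k] K)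
      (hι : Function.Injective (Algebra.TensorProduct.productMap ι₁ ι₂))
      (hK : IntermediateField.adjoin k (Set.range ι₁ ∪ Set.range ι₂) = ⊤) :
      IsSystemTower p k K (ι₁ '' P₁ ∪ ι₂ '' P₂)
  /-- **Families of bounded degree.** Let `(L, P)` be in the class, and let `E` be a field contained
  in `P`. Let `F` be a field of `p ^ e`-th powers of elements of `E` over which `E` is algebraic,
  for example `E ^ (p ^ e)` (or `E` if `e = 0`). Let `K` be generated over `L` by
  `y 1, ..., y N` and have transcendence degree `r` over `L`, and let the exponents `m i` be not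
  divisible by `p ^ (e + 1)` and such that `(y 1 ^ m 1, ..., y N ^ m N)` is the generic point of a
  variety over `F` of dimension `r` and degree at most `δ`. (So `K` is the function field of a
  component of the product over `E` of a variety with the function field `L` and of a variety over
  `E` which is a component of the inverse image of a variety of dimension `r` and degree at most `δ`
  over `F`.) Suppose that `(s * δ) ^ 2 ^ r < p` and `F` is infinite, or that
  `(max s δ) ^ 2 ^ (N - 1) < p`. Then the `y i` and the polynomials over `F` of degree at most `s`
  in the `y i ^ m i` can be added to `P`. -/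
  | family (L K F E : Type) [Field L] [Field K] [Field F] [Field E] [Algebra k L] [Algebra k K]
      [Algebra L K] [IsScalarTower k L K] [Algebra E L] [Algebra E K] [IsScalarTower E L K]
      [Algebra F E] [Algebra F K] [IsScalarTower F E K] [Algebra.IsAlgebraic F E]
      (P : Set L) (h : IsSystemTower p k L P) (hE : ∀ a : E, algebraMap E L a ∈ P)
      (e : ℕ) (hF : ∀ a : F, ∃ b : E, b ^ p ^ e = algebraMap F E a)
      (N r δ s : ℕ) (y : Fin N → K) (hy : IntermediateField.adjoin L (Set.range y) = ⊤)
      (hr : Algebra.trdeg L K = r) (m : Fin N → ℕ) (hm : ∀ i, ¬ p ^ (e + 1) ∣ m i)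
      (hδ : DegreeAtMost F (fun i => y i ^ m i) r δ) (hs : 1 ≤ s)
      (hp : (Infinite F ∧ (s * δ) ^ 2 ^ r < p) ∨ max s δ ^ 2 ^ (N - 1) < p) :
      IsSystemTower p k K (algebraMap L K '' P ∪ (Set.range y ∪
        {z | ∃ G : MvPolynomial (Fin N) F,
          G.totalDegree ≤ s ∧ z = MvPolynomial.aeval (fun i => y i ^ m i) G}))
  /-- **Adjoining one element.** Let `(L, P)` be in the class, and let `Φ` be a set of nonzero
  polynomials over `L` of degree at most `Δ < p`, which contains `X`, is closed under derivatives,
  whose constant members are in `P`, and such that for `f`, `g` in `Φ`, where `f` is not constant,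
  there is a nonzero polynomial `Q` of degree at most `Δ` (for example the characteristic
  polynomial of `g` modulo `f`) whose nonzero coefficients are in `P`, such that `f` divides
  `Q (g)`. Let `K = L (z)`, where `z` is transcendental over `L` or a zero of a member of `Φ`. Then
  the values at `z` of the members of `Φ` can be added to `P`. -/
  | element (L K : Type) [Field L] [Field K] [Algebra k L] [Algebra k K] [Algebra L K]
      [IsScalarTower k L K] (P : Set L) (h : IsSystemTower p k L P) (Δ : ℕ) (hΔ : Δ < p)
      (Φ : Set L[X]) (h0 : ∀ f ∈ Φ, f ≠ 0) (hdeg : ∀ f ∈ Φ, f.natDegree ≤ Δ) (hX : X ∈ Φ)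
      (hder : ∀ f ∈ Φ, 1 ≤ f.natDegree → derivative f ∈ Φ)
      (hconst : ∀ f ∈ Φ, f.natDegree = 0 → f.coeff 0 ∈ P)
      (hQ : ∀ f ∈ Φ, ∀ g ∈ Φ, 1 ≤ f.natDegree → ∃ Q : L[X], Q ≠ 0 ∧ Q.natDegree ≤ Δ ∧
        f ∣ Q.comp g ∧ ∀ n, Q.coeff n ≠ 0 → Q.coeff n ∈ P)
      (z : K) (hz : IntermediateField.adjoin L {z} = ⊤)
      (hz' : Transcendental L z ∨ ∃ f ∈ Φ, aeval z f = 0) :
      IsSystemTower p k K (algebraMap L K '' P ∪ {y | ∃ f ∈ Φ, y = aeval z f})
  /-- **Systems with Frobenius levels, and their coverings.** Let `(L, P)` be in the class, and let
  `M = L (z, x)`, where the elements `z 1, ..., z s` and `x 1, ..., x n` satisfy a schön system over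
  linear relations between `1` and the powers `z t ^ (p ^ e t)`, with coefficients
  `v 1, ..., v h` in `P` (`IsLeveledSystemOver`). Let `F 1, ..., F a` be Laurent polynomials over `k`
  in the variables of `((v, z), x)` which are strongly nondegenerate on the system, for example
  `a = 0`, and let `K = M (w)`, where all `w j ^ p - w j` are integral linear combinations of the
  `F t ((v, z), x)`, or all `w j ^ p` are linear combinations over `k` of the `F t ((v, z), x)` (for
  example `K = M`). Then the `x j`, and the linear combinations over `k` of `1` and of the
  powers `z t ^ (p ^ (e t - f))`, `e t ≥ f`, for all `f ≥ 0`, can be added to `P`. -/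
  | system (L M K : Type) [Field L] [Field M] [Field K] [Algebra k L] [Algebra k M] [Algebra L M]
      [IsScalarTower k L M] [Algebra k K] [Algebra L K] [Algebra M K] [IsScalarTower k M K]
      [IsScalarTower L M K] (P : Set L) (h : IsSystemTower p k L P) (m s n q c a r : ℕ)
      (v : Fin m → L) (hv : ∀ b, v b ∈ P) (e : Fin s → ℕ) (z : Fin s → M) (x : Fin n → M)
      (G : Fin q → (Fin (m + s) ⊕ Fin n → ℤ) →₀ k) (hB : IsLeveledSystemOver p c v e z x G)
      (F : Fin a → (Fin (m + s) ⊕ Fin n → ℤ) →₀ k) (hF : StronglyNondegenerateOn G F)
      (w : Fin r → K)
      (hw : (∀ j, w j ^ p - w j ∈ AddSubgroup.closure (Set.range fun t => algebraMap M K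
          (value (F t) (Fin.append (fun b => algebraMap L M (v b)) z) x))) ∨
        ∀ j, w j ^ p ∈ Submodule.span k (Set.range fun t => algebraMap M K
          (value (F t) (Fin.append (fun b => algebraMap L M (v b)) z) x)))
      (hK : IntermediateField.adjoin M (Set.range w) = ⊤) :
      IsSystemTower p k K (algebraMap L K '' P ∪
        algebraMap M K '' (Set.range x ∪ {g | IsLinearForm k p e z g}))
  /-- **Radicals.** Let `(L, P)` be in the class, and let `K` be generated over `L` by elements
  `w j ≠ 0` such that `(w j) ^ (n j)` is in `P`, for an exponent `n j` prime to `p`. Then the `w j`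
  can be added to `P`. -/
  | radical (L K : Type) [Field L] [Field K] [Algebra k L] [Algebra k K] [Algebra L K]
      [IsScalarTower k L K] (P : Set L) (h : IsSystemTower p k L P) (g : ℕ) (w : Fin g → K)
      (n : Fin g → ℕ) (hw0 : ∀ j, w j ≠ 0) (hn : ∀ j, ¬ p ∣ n j)
      (hw : ∀ j, ∃ z ∈ P, w j ^ n j = algebraMap L K z)
      (hK : IntermediateField.adjoin L (Set.range w) = ⊤) :
      IsSystemTower p k K (algebraMap L K '' P ∪ Set.range w)
  /-- **Products and roots.** If `(K, P)` is in the class, and each nonzero element of `Q` has a
  power which is a product of a constant and of (positive or negative) powers of elements of `P`,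
  then `(K, Q)` is in the class. -/
  | saturation (K : Type) [Field K] [Algebra k K] (P Q : Set K) (h : IsSystemTower p k K P)
      (hQ : ∀ z ∈ Q, z ≠ 0 → ∃ n : ℕ, n ≠ 0 ∧ ∃ (c : k) (l : ℕ) (a : Fin l → K) (e : Fin l → ℤ),
        (∀ i, a i ∈ P) ∧ z ^ n = algebraMap k K c * ∏ i, a i ^ e i) :
      IsSystemTower p k K Q

/-- Finite families of elements of `P` are boundary functions on log smooth models. -/
theorem mod_of_tower (p : ℕ) [Fact p.Prime] (k : Type) [Field k] [PerfectField k]
    [CharP k p] (K : Type) [Field K] [Algebra k K] (P : Set K) (h : IsSystemTower p k K P) :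
    Pool.Agent.N762.FP.Mod k P := by
  induction h with
  | surface E h2 hE =>
    exact Pool.Agent.N762.FP.mod_base (Pool.Agent.W418.LCI.hasLM_of_surface k E h2 hE)
  | artinSchreier K m n h c d q r s E u y G ρ f F T w hK =>
    intro B _ b hb hb0
    obtain ⟨T', I, hT, hI, M, Γ, hF, hR⟩ := Pool.Agent.TH214.SD.wild_models hK B b hb
    exact ⟨T', I, hT, hI, M, hR, fun i => Pool.Agent.N98.IsB.br ⟨Γ i, fun t => hF i t⟩⟩
  | inseparable K m n h c d q r s o E u y G ρ g F w hK =>
    intro B _ b hb hb0
    obtain ⟨T', I, hT, hI, M, Γ, hF, hR⟩ := Pool.Agent.TH214.SD.insep_models hK B b hb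
    exact ⟨T', I, hT, hI, M, hR, fun i => Pool.Agent.N98.IsB.br ⟨Γ i, fun t => hF i t⟩⟩
  | models E P hE => exact Pool.Agent.N762.FP.mod_models hE
  | variety K N r δ s x hx hr hδ hs hp =>
    obtain ⟨htr, C, hC⟩ := hδ
    refine Pool.Agent.N808.PR.mod_abs x hx r hr ?_ δ C s hs hC
      (factorial_ne_zero_of_lt p (Fact.out : p.Prime) hp)
    rw [hx] at htr
    rw [← htr]
    exact (IntermediateField.topEquiv (F := k) (E := K)).trdeg_eq.symm
  | product K₁ K₂ K P₁ P₂ h₁ h₂ ι₁ ι₂ hι hK ih₁ ih₂ =>
    exact Pool.Agent.N762.FP.mod_prod ι₁ ι₂ hι hK ih₁ ih₂
  | family L K F E P h hE e hF N r δ s y hy hr m hm hδ hs hp ih =>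
    obtain ⟨htr, C, hC⟩ := hδ
    exact Pool.Agent.N762.FP.mod_fam p ih hE y m e hm hF hy r δ C htr hr hC s hs
      (hp.imp (fun h => ⟨h.1, factorial_ne_zero_of_lt p (Fact.out : p.Prime) h.2⟩)
        (fun h => factorial_ne_zero_of_lt p (Fact.out : p.Prime) h))
  | element L K P h Δ hΔ Φ h0 hdeg hX hder hconst hQ z hz hz' ih =>
    exact Pool.Agent.N762.FP.mod_root ih Δ (factorial_ne_zero_of_lt p (Fact.out : p.Prime) hΔ) Φ
      h0 hdeg hX hder hconst hQ z hz hz'
  | system L M K P h m s n q c a r v hv e z x G hB F hF w hw hK ih =>
    exact Pool.Agent.N102.TF.mod_system ih hv hB hF w hw hK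
  | radical L K P h g w n hw0 hn hw hK ih =>
    exact Pool.Agent.N762.FP.mod_rad p ih w hw0 n hn hw hK
  | saturation K P Q h hQ ih => exact Pool.Agent.N762.FP.mod_sat ih hQ

/-- Let `k` be a finite field of characteristic `p`, and let `(K, P)` be a pair of an extension of
`k` and a set of its elements which is obtained from function fields of surfaces by the operations
of `IsSystemTower`. Then for every integral scheme `Y` of finite type over `ℤ` whose function field is
isomorphic to `K` there is a regular integral scheme `X'`, proper over `ℤ`, with function field
isomorphic to that of `Y`. -/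
theorem result (p : ℕ) [Fact p.Prime] (k : Type) [Field k] [Finite k] [CharP k p] (K : Type)
    [Field K] [Algebra k K] (P : Set K) (hP : IsSystemTower p k K P)
    (Y : Scheme.{0}) (_ : IsIntegral Y) (f : Y ⟶ Spec (CommRingCat.of ℤ))
    (_ : LocallyOfFiniteType f) (_ : QuasiCompact f) (_ : Nonempty (Y.functionField ≃+* K)) :
    ∃ (X' : Scheme.{0}) (_ : IsIntegral X') (g : X' ⟶ Spec (CommRingCat.of ℤ)),
      IsProper g ∧
      (∀ x : X',
        (((Module.finrank (IsLocalRing.ResidueField (X'.presheaf.stalk x))
            (IsLocalRing.CotangentSpace (X'.presheaf.stalk x)) : ℕ∞)) : WithBot ℕ∞)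
          = ringKrullDim (X'.presheaf.stalk x)) ∧
      Nonempty (X'.functionField ≃+* Y.functionField) := by
  obtain ⟨ε⟩ := ‹Nonempty (Y.functionField ≃+* K)›
  obtain ⟨T, I, hT, hI, M, hFr, -⟩ := mod_of_tower p k K P hP Empty (fun i => i.elim)
    (fun i => i.elim) (fun i => i.elim)
  obtain ⟨X', hX', g, h1, h2, ⟨h3⟩⟩ := Pool.Agent.W418.Z.regular_of_LM M (fun t z => by
    obtain ⟨a, ha, b, hb, hb0, rfl⟩ := hFr t z
    exact ⟨a, ha, b, hb, hb0, (div_eq_mul_inv _ _).symm⟩)
  exact ⟨X', hX', g, h1, h2, ⟨h3.trans ε.symm⟩⟩

end Pool.Agent.Results.MP_4d1008_ag.AdmissibleSystems
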